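import Mathlib

set_option autoImplicit false
open scoped ContDiff Topology
open Filter

/-! Small smooth perturbations of a ball in complex `N`-space are strongly pseudoconvex. -/

namespace Pool.Agent.Lib.MP_420470_an

noncomputable section

variable {N : ℕ}

/-- the real bilinear form `2 Re <v, w>` on complex `N`-space -/
def BB (N : ℕ) : (Fin N → ℂ) →L[ℝ] (Fin N → ℂ) →L[ℝ] ℝ :=
  (2:ℝ) • ∑ i : Fin N, (innerSL ℝ (E := ℂ)).bilinearComp
    (ContinuousLinearMap.proj (R := ℝ) i) (ContinuousLinearMap.proj (R := ℝ) i)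

lemma BB_apply (v w : Fin N → ℂ) : BB N v w = 2 * ∑ i : Fin N, inner ℝ (v i) (w i) := by
  simp [BB]

/-- squared euclidean norm -/
def SS (z : Fin N → ℂ) : ℝ := ∑ i : Fin N, ‖z i‖ ^ 2

lemma SS_nonneg (z : Fin N → ℂ) : 0 ≤ SS z := by unfold SS; positivity

lemma sq_le_SS (z : Fin N → ℂ) (i : Fin N) : ‖z i‖ ^ 2 ≤ SS z := by
  unfold SS
  exact Finset.single_le_sum (f := fun i => ‖z i‖ ^ 2) (fun i _ => by positivity) (Finset.mem_univ i)

lemma SS_pos {z : Fin N → ℂ} (hz : z ≠ 0) : 0 < SS z := by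
  obtain ⟨i, hi⟩ := Function.ne_iff.mp hz
  have h1 := sq_le_SS z i
  have h2 : 0 < ‖z i‖ := norm_pos_iff.mpr hi
  have h3 : 0 < ‖z i‖ ^ 2 := by positivity
  linarith

lemma SS_add (z w : Fin N → ℂ) : SS (z + w) = SS z + BB N z w + SS w := by
  rw [BB_apply]
  unfold SS
  rw [Finset.mul_sum, ← Finset.sum_add_distrib, ← Finset.sum_add_distrib]
  refine Finset.sum_congr rfl (fun i _ => ?_)
  rw [Pi.add_apply, norm_add_sq_real]

lemma SS_contDiff : ContDiff ℝ ∞ (SS (N := N)) := by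
  unfold SS
  refine ContDiff.sum (fun i _ => ?_)
  exact (contDiff_apply ℝ ℂ i).norm_sq ℝ

lemma SS_hasFDerivAt (z : Fin N → ℂ) : HasFDerivAt (SS (N := N)) (BB N z) z := by
  unfold SS
  have h : ∀ i : Fin N, HasFDerivAt (fun z : Fin N → ℂ => ‖z i‖ ^ 2)
      ((2:ℝ) • (innerSL ℝ (z i)).comp (ContinuousLinearMap.proj (R := ℝ) i)) z := by
    intro i
    have h1 : HasFDerivAt (fun z : Fin N → ℂ => z i) (ContinuousLinearMap.proj (R := ℝ) i) z :=
      (ContinuousLinearMap.proj (R := ℝ) (φ := fun _ : Fin N => ℂ) i).hasFDerivAt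
    refine h1.norm_sq.congr_fderiv ?_
    apply ContinuousLinearMap.ext
    intro v
    simp
    ring
  have h2 := HasFDerivAt.fun_sum (u := Finset.univ) (fun i _ => h i)
  refine h2.congr_fderiv ?_
  apply ContinuousLinearMap.ext
  intro v
  rw [BB_apply]
  simp [Finset.mul_sum]

lemma SS_sub_hasFDerivAt (c z : Fin N → ℂ) :
    HasFDerivAt (fun z => SS (z - c)) (BB N (z - c)) z := by
  have h1 : HasFDerivAt (fun z : Fin N → ℂ => z - c) (ContinuousLinearMap.id ℝ _) z :=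
    (hasFDerivAt_id z).sub_const c
  exact (SS_hasFDerivAt (z - c)).comp z h1

/-- the defining function -/
def PP (c : Fin N → ℂ) (i0 : Fin N) (κ : ℂ → ℝ) (z : Fin N → ℂ) : ℝ :=
  SS (z - c) - 1 - κ (z i0)

/-- the conditions of strong pseudoconvexity, as in the frozen statement -/
def SPC (Ω : Set (Fin N → ℂ)) : Prop :=
  (IsOpen Ω ∧ IsConnected Ω ∧ Bornology.IsBounded Ω ∧
    ∃ ρ : (Fin N → ℂ) → ℝ, ContDiff ℝ ∞ ρ ∧ Ω = {z | ρ z < 0} ∧
      ∀ z ∈ frontier Ω, fderiv ℝ ρ z ≠ 0 ∧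
        ∀ v : Fin N → ℂ, v ≠ 0 → fderiv ℝ ρ z v = 0 →
          fderiv ℝ ρ z (Complex.I • v) = 0 →
          0 < fderiv ℝ (fderiv ℝ ρ) z v v
              + fderiv ℝ (fderiv ℝ ρ) z (Complex.I • v) (Complex.I • v))

section
variable (c : Fin N → ℂ) (i0 : Fin N) (κ : ℂ → ℝ) (hκ : ContDiff ℝ ∞ κ)
  (h0 : ∀ u, 0 ≤ κ u) (h1 : ∀ u, κ u ≤ 1) (h2 : ∀ u, ‖fderiv ℝ (fderiv ℝ κ) u‖ ≤ 1 / 2)

include hκ in
lemma PP_contDiff : ContDiff ℝ ∞ (PP c i0 κ) := by
  unfold PP
  exact ((SS_contDiff.comp (contDiff_id.sub contDiff_const)).sub contDiff_const).sub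
    (hκ.comp (contDiff_apply ℝ ℂ i0))

include hκ in
lemma PP_hasFDerivAt (z : Fin N → ℂ) :
    HasFDerivAt (PP c i0 κ) (BB N (z - c) - (fderiv ℝ κ (z i0)).comp
      (ContinuousLinearMap.proj (R := ℝ) i0)) z := by
  unfold PP
  have hd : DifferentiableAt ℝ κ (z i0) := hκ.differentiable (by simp) _
  have h3 : HasFDerivAt (fun z : Fin N → ℂ => z i0) (ContinuousLinearMap.proj (R := ℝ) i0) z :=
    (ContinuousLinearMap.proj (R := ℝ) (φ := fun _ : Fin N => ℂ) i0).hasFDerivAt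
  have h4 : HasFDerivAt (fun z : Fin N → ℂ => κ (z i0)) ((fderiv ℝ κ (z i0)).comp
      (ContinuousLinearMap.proj (R := ℝ) i0)) z := hd.hasFDerivAt.comp z h3
  exact ((SS_sub_hasFDerivAt c z).sub_const 1).sub h4

include hκ in
lemma PP_fderiv : fderiv ℝ (PP c i0 κ) = fun z => (BB N (z - c) - (fderiv ℝ κ (z i0)).comp
      (ContinuousLinearMap.proj (R := ℝ) i0)) := by
  funext z
  exact (PP_hasFDerivAt c i0 κ hκ z).fderiv

include hκ in
lemma PP_fderiv2 (z v w : Fin N → ℂ) :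
    fderiv ℝ (fderiv ℝ (PP c i0 κ)) z v w
      = BB N v w - fderiv ℝ (fderiv ℝ κ) (z i0) (v i0) (w i0) := by
  rw [PP_fderiv c i0 κ hκ]
  have hd : DifferentiableAt ℝ (fderiv ℝ κ) (z i0) :=
    (hκ.fderiv_right (m := ∞) (by simp)).differentiable (by simp) _
  have h3 : HasFDerivAt (fun z : Fin N → ℂ => z i0) (ContinuousLinearMap.proj (R := ℝ) i0) z :=
    (ContinuousLinearMap.proj (R := ℝ) (φ := fun _ : Fin N => ℂ) i0).hasFDerivAt
  have h4 : HasFDerivAt (fun z : Fin N → ℂ => fderiv ℝ κ (z i0))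
      ((fderiv ℝ (fderiv ℝ κ) (z i0)).comp (ContinuousLinearMap.proj (R := ℝ) i0)) z :=
    hd.hasFDerivAt.comp z h3
  have h5 : HasFDerivAt (fun z : Fin N → ℂ => (fderiv ℝ κ (z i0)).comp
      (ContinuousLinearMap.proj (R := ℝ) (φ := fun _ : Fin N => ℂ) i0))
      ((((ContinuousLinearMap.compL ℝ (Fin N → ℂ) ℂ ℝ).flip
        (ContinuousLinearMap.proj (R := ℝ) (φ := fun _ : Fin N => ℂ) i0)).comp
        ((fderiv ℝ (fderiv ℝ κ) (z i0)).comp (ContinuousLinearMap.proj (R := ℝ) i0)))) z := by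
    exact (((ContinuousLinearMap.compL ℝ (Fin N → ℂ) ℂ ℝ).flip
        (ContinuousLinearMap.proj (R := ℝ) (φ := fun _ : Fin N => ℂ) i0)).hasFDerivAt).comp z h4
  have h6 : HasFDerivAt (fun z : Fin N → ℂ => BB N (z - c)) (BB N) z := by
    have h1 : HasFDerivAt (fun z : Fin N → ℂ => z - c) (ContinuousLinearMap.id ℝ _) z :=
      (hasFDerivAt_id z).sub_const c
    exact ((BB N).hasFDerivAt (x := z - c)).comp z h1
  rw [(h6.fun_sub h5).fderiv]
  simp

include hκ h2 in
lemma kappa_taylor (x y : ℂ) : κ y ≤ κ x + fderiv ℝ κ x (y - x) + 1 / 2 * ‖y - x‖ ^ 2 := by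
  have hlip : ∀ w : ℂ, ‖fderiv ℝ κ w - fderiv ℝ κ x‖ ≤ 1 / 2 * ‖w - x‖ := by
    intro w
    have hd : Differentiable ℝ (fderiv ℝ κ) :=
      (hκ.fderiv_right (m := ∞) (by simp)).differentiable (by simp)
    exact Convex.norm_image_sub_le_of_norm_fderiv_le (𝕜 := ℝ) (f := fderiv ℝ κ) (s := Set.univ)
      (fun u _ => hd u) (fun u _ => h2 u) convex_univ (Set.mem_univ x) (Set.mem_univ w)
  have hmv := Convex.norm_image_sub_le_of_norm_hasFDerivWithin_le' (𝕜 := ℝ) (f := κ)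
    (f' := fderiv ℝ κ) (φ := fderiv ℝ κ x) (s := segment ℝ x y) (C := 1 / 2 * ‖y - x‖)
    (x := x) (y := y)
    (fun u _ => (hκ.differentiable (by simp) u).hasFDerivAt.hasFDerivWithinAt)
    (fun u hu => by
      refine (hlip u).trans ?_
      have : ‖u - x‖ ≤ ‖y - x‖ := by
        obtain ⟨a, b, ha, hb, hab, rfl⟩ := hu
        have : a • x + b • y - x = b • (y - x) := by
          have : a = 1 - b := by linarith
          rw [this, sub_smul, one_smul, smul_sub]; ring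
        rw [this, norm_smul, Real.norm_of_nonneg hb]
        have hb1 : b ≤ 1 := by linarith
        have := norm_nonneg (y - x)
        nlinarith
      gcongr)
    (convex_segment x y) (left_mem_segment ℝ x y) (right_mem_segment ℝ x y)
  rw [Real.norm_eq_abs] at hmv
  have := (abs_le.mp hmv).2
  linarith [this, sq (‖y - x‖), mul_assoc (1/2:ℝ) ‖y - x‖ ‖y - x‖]

include hκ h2 in
lemma PP_convex_ineq (x y : Fin N → ℂ) :
    PP c i0 κ x + fderiv ℝ (PP c i0 κ) x (y - x) ≤ PP c i0 κ y := by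
  rw [PP_fderiv c i0 κ hκ]
  have h3 := kappa_taylor κ hκ h2 (x i0) (y i0)
  have h4 : SS (y - c) = SS (x - c) + BB N (x - c) (y - x) + SS (y - x) := by
    rw [← SS_add]
    congr 1
    abel
  have h5 := sq_le_SS (y - x) i0
  unfold PP
  have h7 : (BB N (x - c) - (fderiv ℝ κ (x i0)).comp
      (ContinuousLinearMap.proj (R := ℝ) (φ := fun _ : Fin N => ℂ) i0) : (Fin N → ℂ) →L[ℝ] ℝ) (y - x)
      = BB N (x - c) (y - x) - fderiv ℝ κ (x i0) (y i0 - x i0) := rfl
  rw [h7, h4]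
  simp only [Pi.sub_apply] at h5
  have h6 : 0 ≤ ‖y i0 - x i0‖ ^ 2 := by positivity
  linarith

include h0 in
lemma PP_center : PP c i0 κ c < 0 := by
  unfold PP SS
  have := h0 (c i0)
  simp
  linarith

include hκ h0 h1 h2 in
theorem spc_PP : SPC {z : Fin N → ℂ | PP c i0 κ z < 0} := by
  have hcd := PP_contDiff c i0 κ hκ
  have hcont : Continuous (PP c i0 κ) := hcd.continuous
  refine ⟨isOpen_lt hcont continuous_const, ?_, ?_, PP c i0 κ, hcd, rfl, ?_⟩
  · refine Convex.isConnected ?_ ⟨c, PP_center c i0 κ h0⟩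
    intro a ha b hb s t hs ht hst
    simp only [Set.mem_ofPred] at ha hb ⊢
    have e1 := PP_convex_ineq c i0 κ hκ h2 (s • a + t • b) a
    have e2 := PP_convex_ineq c i0 κ hκ h2 (s • a + t • b) b
    set x := s • a + t • b with hx
    set D := fderiv ℝ (PP c i0 κ) x with hD
    have e3 : s * D (a - x) + t * D (b - x) = 0 := by
      have : s • (a - x) + t • (b - x) = 0 := by
        rw [hx, smul_sub, smul_sub]
        have : s = 1 - t := by linarith
        subst this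
        module
      have h := congrArg D this
      simpa using h
    rcases eq_or_lt_of_le hs with h | h
    · have : t = 1 := by linarith
      subst this
      nlinarith
    · nlinarith
  · refine (Metric.isBounded_closedBall (x := c) (r := 2)).subset ?_
    intro z hz
    simp only [Set.mem_ofPred] at hz
    rw [mem_closedBall_iff_norm, pi_norm_le_iff_of_nonneg (by norm_num)]
    intro i
    have e1 := sq_le_SS (z - c) i
    unfold PP at hz
    have e2 := h1 (z i0)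
    have e3 : ‖(z - c) i‖ ^ 2 ≤ 2 ^ 2 := by linarith
    exact (abs_le_of_sq_le_sq' e3 (by norm_num)).2
  · intro z hz
    have hz0 : PP c i0 κ z = 0 := frontier_lt_subset_eq hcont continuous_const hz
    refine ⟨fun hD => ?_, fun v hv _ _ => ?_⟩
    · have e1 := PP_convex_ineq c i0 κ hκ h2 z c
      rw [hD, hz0] at e1
      have := PP_center c i0 κ h0
      simp at e1
      linarith
    · rw [PP_fderiv2 c i0 κ hκ, PP_fderiv2 c i0 κ hκ, BB_apply, BB_apply]
      have hb : ∀ u : ℂ, |fderiv ℝ (fderiv ℝ κ) (z i0) u u| ≤ 1 / 2 * ‖u‖ ^ 2 := by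
        intro u
        have e1 := (fderiv ℝ (fderiv ℝ κ) (z i0)).le_opNorm₂ u u
        rw [Real.norm_eq_abs] at e1
        have e2 := h2 (z i0)
        have e3 : 0 ≤ ‖u‖ := norm_nonneg u
        calc _ ≤ ‖fderiv ℝ (fderiv ℝ κ) (z i0)‖ * ‖u‖ * ‖u‖ := e1
          _ ≤ 1 / 2 * ‖u‖ * ‖u‖ := by gcongr
          _ = 1 / 2 * ‖u‖ ^ 2 := by ring
      have b1 := hb (v i0)
      have b2 := hb ((Complex.I • v) i0)
      have b3 : ‖(Complex.I • v) i0‖ = ‖v i0‖ := by simp
      rw [b3] at b2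
      have e1 : ∑ i : Fin N, inner ℝ (v i) (v i) = SS v := by
        unfold SS
        exact Finset.sum_congr rfl (fun i _ => real_inner_self_eq_norm_sq _)
      have e2 : ∑ i : Fin N, inner ℝ ((Complex.I • v) i) ((Complex.I • v) i) = SS v := by
        unfold SS
        refine Finset.sum_congr rfl (fun i _ => ?_)
        rw [real_inner_self_eq_norm_sq]
        simp
      rw [e1, e2]
      have e3 := sq_le_SS v i0
      have e4 := SS_pos hv
      have e5 := (abs_le.mp b1).2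
      have e6 := (abs_le.mp b2).2
      linarith

end

end

end Pool.Agent.Lib.MP_420470_an
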