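import Mathlib

set_option autoImplicit false
open scoped ContDiff Topology
open Filter

/-! A smooth function on the complex plane which is holomorphic on the open right
half plane, flat at the origin, nonzero at `1`, with bounded derivatives of all orders. -/

namespace Pool.Agent.Lib.MP_420470_an

noncomputable section

/-- cut-off exponential -/
def Phi (u : ℂ) : ℂ := (Real.smoothTransition (u.re + 1) : ℂ) * Complex.exp (-u)

lemma Phi_contDiff : ContDiff ℝ ∞ Phi := by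
  unfold Phi
  have h1 : ContDiff ℝ ∞ (fun u : ℂ => (u.re + 1 : ℝ)) :=
    (Complex.reCLM.contDiff).add contDiff_const
  have h2 : ContDiff ℝ ∞ (fun u : ℂ => Real.smoothTransition (u.re + 1)) :=
    (Real.smoothTransition.contDiff (n := ⊤)).comp h1
  have h3 : ContDiff ℝ ∞ (fun u : ℂ => ((Real.smoothTransition (u.re + 1) : ℝ) : ℂ)) :=
    (Complex.ofRealCLM.contDiff).comp h2
  exact h3.mul (contDiff_id.neg).cexp

lemma Phi_of_nonneg {u : ℂ} (hu : 0 ≤ u.re) : Phi u = Complex.exp (-u) := by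
  unfold Phi
  rw [Real.smoothTransition.one_of_one_le (by linarith)]
  simp

lemma Phi_of_le {u : ℂ} (hu : u.re ≤ -1) : Phi u = 0 := by
  unfold Phi
  rw [Real.smoothTransition.zero_of_nonpos (by linarith)]
  simp

lemma Phi_norm_le (u : ℂ) : ‖iteratedFDeriv ℝ 0 Phi u‖ = ‖Phi u‖ := by
  simp

/-- vertical translation -/
lemma Phi_add_I (u : ℂ) (y : ℝ) :
    Phi (u + y * Complex.I) = Complex.exp (-(y * Complex.I)) * Phi u := by
  unfold Phi
  simp only [Complex.add_re, Complex.mul_re, Complex.ofReal_re, Complex.I_re, mul_zero,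
    Complex.ofReal_im, Complex.I_im, mul_one, sub_self, add_zero, neg_add, Complex.exp_add]
  ring

lemma norm_iter_add_I (m : ℕ) (u : ℂ) (y : ℝ) :
    ‖iteratedFDeriv ℝ m Phi (u + y * Complex.I)‖ = ‖iteratedFDeriv ℝ m Phi u‖ := by
  have h1 := iteratedFDeriv_comp_add_right (𝕜 := ℝ) (f := Phi) m (y * Complex.I) u
  have h2 : (fun z => Phi (z + y * Complex.I))
      = (Complex.exp (-(y * Complex.I))) • Phi := by
    funext z
    simp [Phi_add_I]
  rw [h2, iteratedFDeriv_const_smul_apply (Phi_contDiff.contDiffAt.of_le (by exact_mod_cast le_top))] at h1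
  rw [← h1, norm_smul]
  have : ‖Complex.exp (-(y * Complex.I))‖ = 1 := by
    rw [Complex.norm_exp]
    simp
  rw [this, one_mul]

lemma norm_iter_right (m : ℕ) (x : ℝ) (hx : 1 ≤ x) :
    ‖iteratedFDeriv ℝ m Phi (x : ℂ)‖ ≤ ‖iteratedFDeriv ℝ m Phi 1‖ := by
  have h1 := iteratedFDeriv_comp_add_right (𝕜 := ℝ) (f := Phi) m ((x - 1 : ℝ) : ℂ) 1
  have h2 : (fun z => Phi (z + ((x - 1 : ℝ) : ℂ)))
      =ᶠ[𝓝 (1:ℂ)] (Complex.exp (-((x - 1 : ℝ) : ℂ))) • Phi := by
    have : ∀ᶠ z : ℂ in 𝓝 (1:ℂ), 0 < z.re := by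
      apply (isOpen_lt continuous_const Complex.continuous_re).mem_nhds
      simp
    filter_upwards [this] with z hz
    have hz2 : 0 ≤ (z + ((x - 1 : ℝ) : ℂ)).re := by
      simp only [Complex.add_re, Complex.ofReal_re]
      linarith
    rw [Phi_of_nonneg hz2]
    simp only [Pi.smul_apply, smul_eq_mul]
    rw [Phi_of_nonneg hz.le, ← Complex.exp_add]
    congr 1
    ring
  have h3 := (Filter.EventuallyEq.iteratedFDeriv ℝ h2 m).eq_of_nhds
  rw [h3, iteratedFDeriv_const_smul_apply (Phi_contDiff.contDiffAt.of_le (by exact_mod_cast le_top))] at h1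
  have h4 : (1 : ℂ) + ((x - 1 : ℝ) : ℂ) = (x : ℂ) := by push_cast; ring
  rw [h4] at h1
  rw [← h1, norm_smul]
  have : ‖Complex.exp (-((x - 1 : ℝ) : ℂ))‖ ≤ 1 := by
    rw [Complex.norm_exp]
    simp only [Complex.neg_re, Complex.ofReal_re]
    apply Real.exp_le_one_iff.mpr
    linarith
  calc _ ≤ 1 * ‖iteratedFDeriv ℝ m Phi 1‖ := by gcongr
    _ = _ := one_mul _

lemma norm_iter_left (m : ℕ) (x : ℝ) (hx : x < -1) :
    ‖iteratedFDeriv ℝ m Phi (x : ℂ)‖ = 0 := by
  have h2 : Phi =ᶠ[𝓝 (x:ℂ)] fun _ => 0 := by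
    have : ∀ᶠ z : ℂ in 𝓝 (x:ℂ), z.re < -1 := by
      apply (isOpen_lt Complex.continuous_re continuous_const).mem_nhds
      simpa using hx
    filter_upwards [this] with z hz
    exact Phi_of_le hz.le
  have h3 := (Filter.EventuallyEq.iteratedFDeriv ℝ h2 m).eq_of_nhds
  rw [h3]
  simp

/-- derivatives of `Phi` are bounded -/
lemma exists_bound (m : ℕ) : ∃ C : ℝ, 0 ≤ C ∧ ∀ u : ℂ, ‖iteratedFDeriv ℝ m Phi u‖ ≤ C := by
  have hc : Continuous (fun x : ℝ => ‖iteratedFDeriv ℝ m Phi (x : ℂ)‖) := by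
    have := Phi_contDiff.continuous_iteratedFDeriv (m := m) (by exact_mod_cast le_top)
    exact (this.comp Complex.continuous_ofReal).norm
  obtain ⟨C, hC⟩ := (isCompact_Icc (a := (-1:ℝ)) (b := 1)).bddAbove_image hc.continuousOn
  have hC' : ∀ x : ℝ, -1 ≤ x → x ≤ 1 → ‖iteratedFDeriv ℝ m Phi (x : ℂ)‖ ≤ C := by
    intro x h1 h2
    exact hC ⟨x, ⟨h1, h2⟩, rfl⟩
  have hC0 : 0 ≤ C := le_trans (norm_nonneg _) (hC' 0 (by norm_num) (by norm_num))
  refine ⟨C, hC0, fun u => ?_⟩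
  have hu : u = (u.re : ℂ) + (u.im : ℝ) * Complex.I := (Complex.re_add_im u).symm
  rw [hu, norm_iter_add_I]
  rcases lt_or_ge u.re (-1) with h | h
  · rw [norm_iter_left m _ h]; exact hC0
  rcases le_or_gt u.re 1 with h' | h'
  · exact hC' _ h h'
  · refine (norm_iter_right m _ h'.le).trans ?_
    have := hC' 1 (by norm_num) le_rfl
    simpa using this

/-- the bounds -/
def bd (m : ℕ) : ℝ := (exists_bound m).choose

lemma bd_nonneg (m : ℕ) : 0 ≤ bd m := (exists_bound m).choose_spec.1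

lemma le_bd (m : ℕ) (u : ℂ) : ‖iteratedFDeriv ℝ m Phi u‖ ≤ bd m :=
  (exists_bound m).choose_spec.2 u

/-- coefficients -/
def cf (j : ℤ) : ℝ := (-1) ^ j * (1/4 : ℝ) ^ (j * (j + 1))

/-- dilations -/
def tf (j : ℤ) : ℝ := (1/4 : ℝ) ^ (-2 * j)

lemma tf_pos (j : ℤ) : 0 < tf j := by unfold tf; positivity

lemma abs_cf (j : ℤ) : |cf j| = (1/4 : ℝ) ^ (j * (j + 1)) := by
  unfold cf
  rw [abs_mul, abs_zpow, abs_neg, abs_one, one_zpow, one_mul, abs_of_pos (by positivity)]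

lemma cf_mul_tf (m : ℕ) (j : ℤ) :
    cf j * tf j ^ m = (-1) ^ j * (1/4 : ℝ) ^ (j * (j + 1 - 2 * m)) := by
  unfold cf tf
  rw [← zpow_natCast, ← zpow_mul, mul_assoc, ← zpow_add₀ (by norm_num)]
  congr 2
  ring

lemma abs_cf_mul_tf (m : ℕ) (j : ℤ) :
    |cf j| * tf j ^ m = (1/4 : ℝ) ^ (j * (j + 1 - 2 * m)) := by
  rw [abs_cf]
  unfold tf
  rw [← zpow_natCast, ← zpow_mul, ← zpow_add₀ (by norm_num)]
  congr 1
  ring

lemma summable_quarter_abs : Summable (fun j : ℤ => (1/4 : ℝ) ^ j.natAbs) := by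
  rw [summable_int_iff_summable_nat_and_neg]
  constructor
  · simpa using summable_geometric_of_lt_one (r := (1/4:ℝ)) (by norm_num) (by norm_num)
  · simpa using summable_geometric_of_lt_one (r := (1/4:ℝ)) (by norm_num) (by norm_num)

lemma summable_cf_tf (m : ℕ) : Summable (fun j : ℤ => |cf j| * tf j ^ m) := by
  refine Summable.of_norm_bounded_eventually summable_quarter_abs ?_
  have hfin : {j : ℤ | |j| ≤ 2 * m + 2}.Finite := by
    have : {j : ℤ | |j| ≤ 2 * m + 2} = Set.Icc (-(2 * m + 2 : ℤ)) (2 * m + 2) := by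
      ext j; simp [abs_le]
    rw [this]; exact Set.finite_Icc _ _
  have := hfin.compl_mem_cofinite
  filter_upwards [this] with j hj
  simp only [Set.mem_compl_iff, Set.mem_ofPred, not_le] at hj
  rw [abs_cf_mul_tf, Real.norm_of_nonneg (by positivity), ← zpow_natCast]
  apply zpow_le_zpow_right_of_le_one₀ (by norm_num) (by norm_num)
  rw [Int.natCast_natAbs]
  rcases abs_cases j with ⟨h1, h2⟩ | ⟨h1, h2⟩
  · rw [h1] at hj ⊢
    nlinarith
  · rw [h1] at hj ⊢
    nlinarith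

/-- moments vanish -/
lemma tsum_moment (m : ℕ) : ∑' j : ℤ, cf j * tf j ^ m = 0 := by
  let e : ℤ ≃ ℤ :=
    { toFun := fun j => 2 * m - 1 - j
      invFun := fun j => 2 * m - 1 - j
      left_inv := fun j => by ring
      right_inv := fun j => by ring }
  have h1 : ∑' j : ℤ, cf j * tf j ^ m = ∑' j : ℤ, cf (e j) * tf (e j) ^ m :=
    (Equiv.tsum_eq e (fun j => cf j * tf j ^ m)).symm
  have h2 : ∀ j : ℤ, cf (e j) * tf (e j) ^ m = - (cf j * tf j ^ m) := by
    intro j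
    rw [cf_mul_tf, cf_mul_tf]
    have hs : ((-1 : ℝ)) ^ (e j) = - (-1) ^ j := by
      change ((-1 : ℝ)) ^ (2 * (m:ℤ) - 1 - j) = - (-1) ^ j
      rw [zpow_sub₀ (by norm_num), zpow_sub₀ (by norm_num), zpow_mul]
      norm_num
      rcases Int.even_or_odd j with h | h
      · rw [h.neg_one_zpow]; norm_num
      · rw [h.neg_one_zpow]; norm_num
    have he : (e j) * (e j + 1 - 2 * m) = j * (j + 1 - 2 * m) := by
      change (2 * (m:ℤ) - 1 - j) * ((2 * (m:ℤ) - 1 - j) + 1 - 2 * m) = _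
      ring
    rw [hs, he]
    ring
  simp only [h2, tsum_neg] at h1
  linarith

/-- the flat function -/
def H (u : ℂ) : ℂ := ∑' j : ℤ, cf j • Phi (tf j • u)

lemma term_contDiff (j : ℤ) : ContDiff ℝ ∞ (fun u : ℂ => cf j • Phi (tf j • u)) :=
  (Phi_contDiff.comp (contDiff_const_smul (tf j))).const_smul (cf j)

lemma iter_term (m : ℕ) (j : ℤ) (u : ℂ) :
    iteratedFDeriv ℝ m (fun u : ℂ => cf j • Phi (tf j • u)) u
      = (cf j * tf j ^ m) • iteratedFDeriv ℝ m Phi (tf j • u) := by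
  have h0 : ContDiff ℝ m Phi := Phi_contDiff.of_le (by exact_mod_cast le_top)
  have h1 : ContDiff ℝ m (fun u : ℂ => Phi (tf j • u)) :=
    h0.comp (contDiff_const_smul (tf j))
  have h2 := iteratedFDeriv_const_smul_apply (a := cf j) (h1.contDiffAt (x := u))
  have h3 : (fun u : ℂ => cf j • Phi (tf j • u)) = cf j • (fun u : ℂ => Phi (tf j • u)) := rfl
  rw [h3, h2, iteratedFDeriv_comp_const_smul _ h0, smul_smul]

lemma term_bound (m : ℕ) (j : ℤ) (u : ℂ) :
    ‖iteratedFDeriv ℝ m (fun u : ℂ => cf j • Phi (tf j • u)) u‖ ≤ |cf j| * tf j ^ m * bd m := by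
  rw [iter_term, norm_smul, Real.norm_eq_abs, abs_mul, abs_of_pos (pow_pos (tf_pos j) m)]
  have := le_bd m (tf j • u)
  have h2 : 0 ≤ |cf j| * tf j ^ m := by
    have := tf_pos j
    positivity
  exact mul_le_mul_of_nonneg_left this h2

lemma H_contDiff : ContDiff ℝ ∞ H := by
  have := contDiff_tsum (𝕜 := ℝ) (N := ⊤) (f := fun (j : ℤ) (u : ℂ) => cf j • Phi (tf j • u))
    (v := fun m j => |cf j| * tf j ^ m * bd m) (fun j => term_contDiff j)
    (fun m _ => (summable_cf_tf m).mul_right _) (fun m j u _ => term_bound m j u)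
  exact this

lemma iter_H (m : ℕ) (u : ℂ) :
    iteratedFDeriv ℝ m H u = ∑' j : ℤ, (cf j * tf j ^ m) • iteratedFDeriv ℝ m Phi (tf j • u) := by
  have := iteratedFDeriv_tsum (𝕜 := ℝ) (N := ⊤)
    (f := fun (j : ℤ) (u : ℂ) => cf j • Phi (tf j • u))
    (v := fun m j => |cf j| * tf j ^ m * bd m) (fun j => term_contDiff j)
    (fun m _ => (summable_cf_tf m).mul_right _) (fun m j u _ => term_bound m j u) (k := m)
    (by exact_mod_cast le_top)
  have h2 := congrFun this u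
  refine Eq.trans h2 ?_
  exact tsum_congr (fun j => iter_term m j u)

lemma iter_H_zero (m : ℕ) : iteratedFDeriv ℝ m H 0 = 0 := by
  rw [iter_H]
  simp only [smul_zero]
  have hs : Summable (fun j : ℤ => cf j * tf j ^ m) := by
    refine Summable.of_norm ?_
    refine (summable_cf_tf m).congr (fun j => ?_)
    rw [Real.norm_eq_abs, abs_mul, abs_of_pos (pow_pos (tf_pos j) m)]
  rw [hs.tsum_smul_const, tsum_moment, zero_smul]

lemma iter_H_bound (m : ℕ) : ∃ C : ℝ, 0 ≤ C ∧ ∀ u, ‖iteratedFDeriv ℝ m H u‖ ≤ C := by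
  refine ⟨∑' j : ℤ, |cf j| * tf j ^ m * bd m, ?_, fun u => ?_⟩
  · apply tsum_nonneg
    intro j
    have := tf_pos j
    have := bd_nonneg m
    positivity
  · rw [iter_H]
    refine tsum_of_norm_bounded ((summable_cf_tf m).mul_right (bd m)).hasSum (fun j => ?_)
    rw [← iter_term]
    exact term_bound m j u

lemma H_differentiableOn : DifferentiableOn ℂ H {u : ℂ | 0 < u.re} := by
  have hopen : IsOpen {u : ℂ | 0 < u.re} := isOpen_lt continuous_const Complex.continuous_re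
  have hs : Summable (fun j : ℤ => |cf j|) := by
    simpa using summable_cf_tf 0
  refine Complex.differentiableOn_tsum_of_summable_norm (F := fun (j : ℤ) (u : ℂ) => cf j • Phi (tf j • u)) hs ?_ hopen ?_
  · intro j
    have : DifferentiableOn ℂ (fun u : ℂ => (cf j : ℂ) * Complex.exp (-((tf j : ℂ) * u)))
        {u : ℂ | 0 < u.re} := by fun_prop
    refine this.congr (fun u hu => ?_)
    have hu' : 0 < u.re := hu
    have h0 : 0 ≤ (tf j • u).re := by
      simp only [Complex.smul_re, smul_eq_mul]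
      have := tf_pos j
      positivity
    rw [Phi_of_nonneg h0]
    simp only [Complex.real_smul]
  · intro j u hu
    have hu' : 0 < u.re := hu
    have h0 : 0 ≤ (tf j • u).re := by
      simp only [Complex.smul_re, smul_eq_mul]
      have := tf_pos j
      positivity
    change ‖cf j • Phi (tf j • u)‖ ≤ |cf j|
    rw [Phi_of_nonneg h0, norm_smul, Real.norm_eq_abs, Complex.norm_exp]
    have : Real.exp (-(tf j • u)).re ≤ 1 := by
      apply Real.exp_le_one_iff.mpr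
      simp only [Complex.neg_re]
      linarith
    calc |cf j| * Real.exp (-(tf j • u)).re ≤ |cf j| * 1 := by gcongr
      _ = |cf j| := mul_one _

lemma cf_neg (n : ℕ) : cf (-((n:ℤ) + 1)) = - cf n := by
  unfold cf
  have h1 : (-((n:ℤ) + 1)) * (-((n:ℤ) + 1) + 1) = (n:ℤ) * ((n:ℤ) + 1) := by ring
  rw [h1]
  have h2 : (-1 : ℝ) ^ (-((n:ℤ) + 1)) = - (-1) ^ (n:ℤ) := by
    rw [zpow_neg, zpow_add₀ (by norm_num)]
    rcases Int.even_or_odd (n:ℤ) with h | h
    · rw [h.neg_one_zpow]; norm_num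
    · rw [h.neg_one_zpow]; norm_num
  rw [h2]
  ring

lemma H_one_ne_zero : H 1 ≠ 0 := by
  let a : ℤ → ℝ := fun j => cf j * Real.exp (-tf j)
  have hHa : H 1 = ((∑' j : ℤ, a j : ℝ) : ℂ) := by
    rw [Complex.ofReal_tsum]
    unfold H
    refine tsum_congr (fun j => ?_)
    have h0 : 0 ≤ (tf j • (1:ℂ)).re := by
      simp only [Complex.smul_re, smul_eq_mul, Complex.one_re, mul_one]
      exact (tf_pos j).le
    rw [Phi_of_nonneg h0]
    simp [a]
  have hexp : ∀ j, Real.exp (-tf j) ≤ 1 := fun j => by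
    apply Real.exp_le_one_iff.mpr
    have := tf_pos j
    linarith
  have hs : Summable a := by
    have h0 : Summable (fun j : ℤ => |cf j|) := by simpa using summable_cf_tf 0
    refine Summable.of_norm_bounded h0 (fun j => ?_)
    rw [Real.norm_eq_abs, abs_mul, abs_of_pos (Real.exp_pos _)]
    calc |cf j| * Real.exp (-tf j) ≤ |cf j| * 1 := by
          have := hexp j
          gcongr
      _ = |cf j| := mul_one _
  have hs1 : Summable (fun n : ℕ => a n) := hs.comp_injective Nat.cast_injective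
  have hs2 : Summable (fun n : ℕ => a (-((n:ℤ) + 1))) := by
    apply hs.comp_injective
    intro x y hxy
    simpa using hxy
  have hsum : ∑' j : ℤ, a j = ∑' n : ℕ, (a n + a (-((n:ℤ) + 1))) := by
    rw [tsum_of_nat_of_neg_add_one hs1 hs2, hs1.tsum_add hs2]
  have hs3 := hs1.add hs2
  have hterm : ∀ n : ℕ, a n + a (-((n:ℤ) + 1))
      = cf n * (Real.exp (-tf n) - Real.exp (-tf (-((n:ℤ) + 1)))) := by
    intro n
    simp only [a, cf_neg]
    ring
  have h0 : a (0:ℕ) + a (-(((0:ℕ):ℤ) + 1)) ≤ - (7/16) := by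
    rw [hterm]
    have e1 : cf ((0:ℕ):ℤ) = 1 := by simp [cf]
    have e2 : tf ((0:ℕ):ℤ) = 1 := by simp [tf]
    have e3 : tf (-(((0:ℕ):ℤ) + 1)) = 1/16 := by
      unfold tf
      norm_num
    rw [e1, e2, e3]
    have h1 : Real.exp (-1) ≤ 1/2 := by
      rw [Real.exp_neg]
      have : (2:ℝ) ≤ Real.exp 1 := by
        have := Real.add_one_le_exp (1:ℝ)
        linarith
      have h4 : (Real.exp 1)⁻¹ ≤ (2:ℝ)⁻¹ := inv_anti₀ (by norm_num) this
      linarith
    have h2 : 1 - 1/16 ≤ Real.exp (-(1/16)) := by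
      have := Real.add_one_le_exp (-(1/16):ℝ)
      linarith
    linarith
  have hbd : ∀ n : ℕ, ‖a ((n+1:ℕ):ℤ) + a (-(((n+1:ℕ):ℤ) + 1))‖ ≤ (1/16:ℝ) ^ (n+1) := by
    intro n
    rw [hterm, Real.norm_eq_abs, abs_mul, abs_cf]
    have h1 : |Real.exp (-tf ((n+1:ℕ):ℤ)) - Real.exp (-tf (-(((n+1:ℕ):ℤ) + 1)))| ≤ 1 := by
      have p1 := Real.exp_pos (-tf ((n+1:ℕ):ℤ))
      have p2 := Real.exp_pos (-tf (-(((n+1:ℕ):ℤ) + 1)))
      have p3 := hexp ((n+1:ℕ):ℤ)
      have p4 := hexp (-(((n+1:ℕ):ℤ) + 1))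
      rw [abs_le]
      constructor <;> linarith
    have h2 : (1/4 : ℝ) ^ (((n+1:ℕ):ℤ) * (((n+1:ℕ):ℤ) + 1)) ≤ (1/16:ℝ) ^ (n+1) := by
      have : (1/16:ℝ) ^ (n+1) = (1/4:ℝ) ^ (2 * ((n+1:ℕ):ℤ)) := by
        rw [zpow_mul, zpow_natCast]
        norm_num
      rw [this]
      apply zpow_le_zpow_right_of_le_one₀ (by norm_num) (by norm_num)
      push_cast
      nlinarith
    calc _ ≤ (1/16:ℝ) ^ (n+1) * 1 := by gcongr
      _ = _ := mul_one _
  have htail : ‖∑' n : ℕ, (a ((n+1:ℕ):ℤ) + a (-(((n+1:ℕ):ℤ) + 1)))‖ ≤ 1/15 := by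
    have hg : HasSum (fun n : ℕ => (1/16:ℝ) ^ (n+1)) (1/15) := by
      have h := (hasSum_geometric_of_lt_one (r := (1/16:ℝ)) (by norm_num) (by norm_num)).mul_left (1/16)
      have e1 : (fun i : ℕ => (1/16:ℝ) * (1/16) ^ i) = (fun n : ℕ => (1/16:ℝ) ^ (n+1)) := by
        funext n; rw [pow_succ]; ring
      have e2 : (1/16:ℝ) * (1 - 1/16)⁻¹ = 1/15 := by norm_num
      rw [e1, e2] at h
      exact h
    exact tsum_of_norm_bounded hg hbd
  rw [hHa]
  intro hz
  have hz' : ∑' j : ℤ, a j = 0 := by exact_mod_cast hz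
  rw [hsum, hs3.tsum_eq_zero_add] at hz'
  rw [Real.norm_eq_abs, abs_le] at htail
  have key : (a (0:ℕ) + a (-(((0:ℕ):ℤ) + 1)))
      + ∑' n : ℕ, (a ((n+1:ℕ):ℤ) + a (-(((n+1:ℕ):ℤ) + 1))) = 0 := hz'
  have h3 := htail.2
  generalize (∑' n : ℕ, (a ((n+1:ℕ):ℤ) + a (-(((n+1:ℕ):ℤ) + 1)))) = T at key h3
  generalize (a (0:ℕ) + a (-(((0:ℕ):ℤ) + 1))) = X at key h0
  clear_value a
  norm_num at key h0 h3
  linarith

end

end Pool.Agent.Lib.MP_420470_an
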